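import Pool.Agent.KS6_69.MG.Base

/-!
# A decomposition family with a matching for which the extremal graphs are far from the expected ones

For an explicit graph `H` with 10 vertices, 16 edges and chromatic number three, whose decomposition family
contains a matching and for which `γ = β = 2`: for every `n`, an `H`-free graph on `n` vertices which is the
join of one vertex and a graph obtained from `T_2 (n - 1)` by changing at most `(n - 30) / 4` edges has at
least two edges fewer than `ex (n, H)`. The graph is that of an earlier run.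
-/

set_option autoImplicit false

namespace Pool.Agent.Results.MP_bb01b3_co.LinearlyManyEdges

open Finset SimpleGraph Pool.Agent.KS6_69.MG

/-- The graph `(M ∪ E_t) ∇ T_{p-1}((p-1)t)`: the class `0` of `Fin p × Fin t` is `E_t`. -/
def host (p : ℕ) {m : ℕ} (M : SimpleGraph (Fin m)) (t : ℕ) : SimpleGraph (Fin m ⊕ (Fin p × Fin t)) :=
  SimpleGraph.fromRel (fun x y : Fin m ⊕ (Fin p × Fin t) =>
    Sum.elim (fun a => Sum.elim (fun b => M.Adj a b) (fun q => q.1.val ≠ 0) y)
      (fun q => Sum.elim (fun _ => q.1.val ≠ 0) (fun q' => q.1 ≠ q'.1) y) x)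

/-- `H` is contained in `(M ∪ E_t) ∇ T_{p-1}((p-1)t)` for some `t`. -/
def Fits {h : ℕ} (H : SimpleGraph (Fin h)) (p m : ℕ) (M : SimpleGraph (Fin m)) : Prop :=
  ∃ t : ℕ, H.IsContained (host p M t)

/-- `M` is in the decomposition family of `H`, where `χ(H) = p + 1`. -/
def InFamily {h : ℕ} (H : SimpleGraph (Fin h)) (p m : ℕ) (M : SimpleGraph (Fin m)) : Prop :=
  Fits H p m M ∧
    ∀ (m' : ℕ) (M' : SimpleGraph (Fin m')), M'.IsContained M → Fits H p m' M' → M.IsContained M'

/-- `β(H)` is `b`: the least size of a covering of a member of the decomposition family. -/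
def IsBeta {h : ℕ} (H : SimpleGraph (Fin h)) (p b : ℕ) : Prop :=
  IsLeast {k : ℕ | ∃ (m : ℕ) (M : SimpleGraph (Fin m)) (S : Finset (Fin m)), InFamily H p m M ∧
    (∀ a b, M.Adj a b → a ∈ S ∨ b ∈ S) ∧ S.card = k} b

/-- `γ(H)` is `c`: the least size of an independent covering of a member of the decomposition family. -/
def IsGamma {h : ℕ} (H : SimpleGraph (Fin h)) (p c : ℕ) : Prop :=
  IsLeast {k : ℕ | ∃ (m : ℕ) (M : SimpleGraph (Fin m)) (S : Finset (Fin m)), InFamily H p m M ∧
    (∀ a b, M.Adj a b → a ∈ S ∨ b ∈ S) ∧ (∀ a ∈ S, ∀ b ∈ S, ¬ M.Adj a b) ∧ S.card = k} c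

/-- The join of two graphs. -/
def join {a b : ℕ} (H1 : SimpleGraph (Fin a)) (H2 : SimpleGraph (Fin b)) :
    SimpleGraph (Fin a ⊕ Fin b) :=
  SimpleGraph.fromRel (fun x y : Fin a ⊕ Fin b =>
    Sum.elim (fun a => Sum.elim (fun b => H1.Adj a b) (fun _ => True) y)
      (fun a => Sum.elim (fun _ => True) (fun b => H2.Adj a b) y) x)

lemma beta_lb (m : ℕ) (M : SimpleGraph (Fin m)) (S : Finset (Fin m)) (hM : Mem m M)
    (hS : ∀ a b, M.Adj a b → a ∈ S ∨ b ∈ S) : 2 ≤ S.card := by
  by_contra h
  refine notDec m M (fun a => a ∈ S) ∅ (by simp) ?_ (by simp) ?_ hM.1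
  · intro x y hx hy
    exact card_le_one.1 (by omega) x hx y hy
  · intro x y hxy
    simpa using hS x y hxy

/-- There is a graph `H` with 10 vertices, 16 edges and chromatic number three (so `p = 2`), whose
decomposition family contains a matching and with `β = γ = 2`, such that for all `n`, `C` with
`4 C + 30 ≤ n`: every `H`-free graph on `n` vertices that is the join of a graph on one vertex and
a graph obtained from `T_2(n - 1)` by adding and deleting at most `C` edges has at least two edges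
fewer than some `H`-free graph on `n` vertices. -/
theorem result : ∃ H : SimpleGraph (Fin 10),
    H.edgeSet.ncard = 16 ∧ H.chromaticNumber = 3 ∧
    (∃ (m : ℕ) (M : SimpleGraph (Fin m)), InFamily H 2 m M ∧ ∀ v, ∃! w, M.Adj v w) ∧
    IsBeta H 2 2 ∧ IsGamma H 2 2 ∧
    ∀ n C : ℕ, 4 * C + 30 ≤ n → ∀ (H1 : SimpleGraph (Fin 1)) (H2 : SimpleGraph (Fin (n - 1))),
      (symmDiff H2.edgeSet (turanGraph (n - 1) 2).edgeSet).ncard ≤ C →
      ¬ H.IsContained (join H1 H2) →
      ∃ G : SimpleGraph (Fin n), ¬ H.IsContained G ∧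
        (join H1 H2).edgeSet.ncard + 2 ≤ G.edgeSet.ncard := by
  classical
  have hmem : ∀ (m : ℕ) (M : SimpleGraph (Fin m)), InFamily HH 2 m M ↔ Mem m M := fun m M => Iff.rfl
  refine ⟨HH, ?_, ?_, ⟨8, M4, mem4, by unfold ExistsUnique; decide +kernel⟩, ⟨?_, ?_⟩, gam, ?_⟩
  · have h1 : HH.edgeFinset.card = 16 := by decide +kernel
    rw [← h1, ← Set.ncard_coe_finset, coe_edgeFinset]
  · apply le_antisymm
    · have : HH.Colorable 3 :=
        ⟨Coloring.mk ![0, 1, 0, 1, 0, 1, 0, 1, 2, 2] (by decide +kernel)⟩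
      exact this.chromaticNumber_le
    · have h1 : HH.IsClique (({0, 1, 9} : Finset (Fin 10)) : Set (Fin 10)) := by
        intro a ha b hb hab
        revert a b
        simp only [coe_insert, coe_singleton, Set.mem_insert_iff, Set.mem_singleton_iff]
        decide +kernel
      exact h1.card_le_chromaticNumber
  · obtain ⟨m, M, S, h1, h2, -, h3⟩ := gam.1
    exact ⟨m, M, S, h1, h2, h3⟩
  · rintro k ⟨m, M, S, hM, hS, rfl⟩
    exact beta_lb m M S hM hS
  · intro n C hn H1 H2 h1 h2
    have h4 : H2 ≤ turanGraph (n - 1) 2 := le_turan (by omega) H1 H2 h1 h2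
    let e : Fin n ≃ Fin 1 ⊕ Fin (n - 1) := Fintype.equivOfCardEq (by simp; omega)
    refine ⟨(GS (n - 1)).comap e, fun hc =>
      GS_free _ (hc.trans ⟨(Iso.comap e (GS (n - 1))).toCopy⟩), ?_⟩
    have h6 : ((GS (n - 1)).comap e).edgeSet.ncard = (GS (n - 1)).edgeSet.ncard :=
      Set.ncard_congr' (Iso.comap e (GS (n - 1))).mapEdgeSet
    have h7 := GS_more (r := n - 1) (by omega) H1
    have h8 : join H1 H2 ≤ JJ H1 (turanGraph (n - 1) 2) := by
      rintro (x | x) (y | y) hxy
      · exact hxy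
      · exact hxy
      · exact hxy
      · exact ⟨hxy.1, hxy.2.imp (fun h => h4 h) (fun h => h4 h)⟩
    have h9 := Set.ncard_le_ncard (edgeSet_mono h8)
    omega

end Pool.Agent.Results.MP_bb01b3_co.LinearlyManyEdges
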